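import Pool.Agent.TH125.Gal.Pub2

/-!
# Abelian varieties and the injectivity of the cycle class map: definitions
-/

open CategoryTheory AlgebraicGeometry Polynomial

universe u v w

namespace Pool.Agent.Y146.KPS

section Alg

variable {K A B : Type*} [Field K] [Ring A] [Algebra K A] [Ring B] [Algebra K B]
  {Γ : Type*} [Group Γ]

/-- The homomorphism `m` is equal to `p + q` on the subspace `U`. -/
def IsSumOn (m p q : A →ₐ[K] B) (U : Submodule K A) : Prop := ∀ a ∈ U, m a = p a + q a

/-- The algebra `A` is generated by `U`, and `ξ` is a linear combination of elements of `D` such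
that the value of `t` at `ξ ^ n` is not zero and `Γ` acts on `ξ` by the character `χ`. -/
def IsPolarized (t : A →ₗ[K] K) (n : ℕ) (U : Submodule K A) (D : Set A) (χ : Γ →* Kˣ)
    (ρ : Γ →* (A ≃ₐ[K] A)) (ξ : A) : Prop :=
  Algebra.adjoin K (U : Set A) = ⊤ ∧ ξ ∈ Submodule.span K D ∧ t (ξ ^ n) ≠ 0 ∧
    ∀ g, ρ g ξ = (χ g : K) • ξ

/-- The polynomial `m` is squarefree, it annihilates the operator `f` on `U`, the adjoint of `f` for
the form `t (a b θ)` on `U` is `h(f)`, and `h(x)` is the complex conjugate of `x` for all complex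
zeros `x` of `m`. -/
def HasRosati [CharZero K] (t : A →ₗ[K] K) (θ : A) (U : Submodule K A) (f : Module.End K A)
    (m h : ℚ[X]) : Prop :=
  Squarefree m ∧ (∀ a ∈ U, aeval f (m.map (algebraMap ℚ K)) a = 0) ∧
    (∀ a ∈ U, ∀ b ∈ U, t (f a * b * θ) = t (a * aeval f (h.map (algebraMap ℚ K)) b * θ)) ∧
    ∀ x : ℂ, aeval x m = 0 → aeval x h = starRingEnd ℂ x

/-- The operator `f` commutes on `U` with the operators in `E`, and every subspace `V` of `U` which
is stable under `Γ` and under the operators in `E` is the image of `U` under a projection `p(f)`,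
for a polynomial `p`. -/
def GeneratesCentre (U : Submodule K A) (ρ : Γ →* (A ≃ₐ[K] A)) (E : Set (A →ₗ[K] A))
    (f : Module.End K A) : Prop :=
  (∀ e ∈ E, ∀ a ∈ U, e (f a) = f (e a)) ∧
    ∀ V ≤ U, (∀ g, ∀ a ∈ V, ρ g a ∈ V) → (∀ e ∈ E, ∀ a ∈ V, e a ∈ V) →
      ∃ p : K[X], (∀ a ∈ V, aeval f p a = a) ∧ ∀ a ∈ U, aeval f p a ∈ V

/-- Every monic irreducible factor `p` of `m` over `K` is self-dual, that is, divides `p(h)`, or has
all its coefficients in the field `M`. -/
def SelfDualOrIn [CharZero K] (M : Subfield K) (m h : ℚ[X]) : Prop :=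
  ∀ p : K[X], p.Monic → Irreducible p → p ∣ m.map (algebraMap ℚ K) →
    p ∣ p.comp (h.map (algebraMap ℚ K)) ∨ ∀ i, p.coeff i ∈ M

/-- There is no non-trivial linear relation between the vectors `x i` with coefficients in `M`. -/
def IndependentOver (M : Set K) {n : ℕ} (x : Fin n → A) : Prop :=
  ∀ c : Fin n → K, (∀ i, c i ∈ M) → ∑ i, c i • x i = 0 → c = 0

/-- The sum of the compositions `v j ∘ u j` is the identity. -/
def SumsToOne {r : ℕ} {C : Fin r → Type*} [∀ j, Ring (C j)] [∀ j, Algebra K (C j)]
    (u : ∀ j, A →ₗ[K] C j) (v : ∀ j, C j →ₗ[K] A) : Prop :=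
  ∀ x, ∑ j, v j (u j x) = x

end Alg

open Pool.Agent.H914 Pool.Agent.H914.VarClass Pool.Agent.H914.VarClass.Obj
  Pool.Agent.H914.WeilCohomology Pool.Agent.TH125.Gal

variable {k : Type u} [Field k] {𝒱 : VarClass k} {ops : CycleOps 𝒱}
  {W : WeilCohomology.{u, v} ops}

/-- The map `H(X) → H(Y)` given by a cycle `z` on `X × Y`: `a ↦ q_* (z ∪ p^* a)` for the
projections `p` and `q`. -/
noncomputable def cycMap (W : WeilCohomology.{u, v} ops) {X Y : 𝒱.Obj} (z : (X.prod Y).Cycles) :
    W.H X →ₗ[W.K] W.H Y := corrOp (W.map (fst X Y)) (W.push (snd X Y)) (W.cl (X.prod Y) z)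

/-- The operators on the cohomology of `X` given by the algebraic correspondences from `X` to `X`
of degree zero. -/
def AlgOps (W : WeilCohomology.{u, v} ops) (X : 𝒱.Obj) : Set (W.H X →ₗ[W.K] W.H X) :=
  {e | ∃ z, (X.prod X).IsCyc X.dim z ∧ cycMap W z = e}

/-- The variety `A` with the polarization `ξ` has the formal properties of an abelian variety: the
cohomology is generated by `H¹(A)`; there is a morphism `s : A × A ⟶ A` with `s^* a = p^* a + q^* a`
for `a` in `H¹(A)`, where `p` and `q` are the projections; `ξ` is a linear combination of classes of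
divisors, the trace of its top power is not zero, and the group acts on it by `χ`. -/
def IsAbelian {Γ : Type w} [Group Γ] (χ : Γ →* W.Kˣ) (A : GVar W Γ) (ξ : W.H A.X) : Prop :=
  IsPolarized (W.tr A.X) A.X.dim (W.gr A.X 1) (algClasses W A.X 1) χ A.act ξ ∧
    ∃ s : A.X.prod A.X ⟶ A.X,
      IsSumOn (W.map s) (W.map (fst A.X A.X)) (W.map (snd A.X A.X)) (W.gr A.X 1)

/-- The variety `A` has the formal properties of an abelian variety, with a polarization `ξ`, and it
has an endomorphism `f` which generates the centre of the algebra of the endomorphisms: `f` is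
annihilated by the polynomial `m`, its Rosati adjoint is `h(f)`, it commutes on `H¹(A)` with the
algebraic correspondences, and the subspaces of `H¹(A)` which are stable under the group `Γ` and
under the algebraic correspondences are the images of polynomials in `f`. The irreducible factors of
`m` over the coefficient field are self-dual or have coefficients in the field `M`. -/
def AbelianOver {Γ : Type w} [Group Γ] (χ : Γ →* W.Kˣ) (M : Subfield W.K) (A : GVar W Γ) : Prop :=
  ∃ (ξ : W.H A.X) (f : A.X ⟶ A.X) (m h : ℚ[X]), IsAbelian χ A ξ ∧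
    HasRosati (W.tr A.X) (ξ ^ (A.X.dim - 1)) (W.gr A.X 1) (W.map f).toLinearMap m h ∧
    GeneratesCentre (W.gr A.X 1) A.act (AlgOps W A.X) (W.map f).toLinearMap ∧ SelfDualOrIn M m h

/-- The products of members of `S`. -/
inductive IsProductOf (S : Set 𝒱.Obj) : 𝒱.Obj → Prop
  | base {X : 𝒱.Obj} : X ∈ S → IsProductOf S X
  | prod {X Y : 𝒱.Obj} : IsProductOf S X → IsProductOf S Y → IsProductOf S (X.prod Y)

/-- The cycles `u` on `X × Y` and `v` on `Y × X` are homogeneous, and the correspondences `u` and
`v` have opposite degrees. -/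
def AreOpposite {X Y : 𝒱.Obj} (u : (X.prod Y).Cycles) (v : (Y.prod X).Cycles) : Prop :=
  ∃ a b : ℕ, a + b = X.dim + Y.dim ∧ (X.prod Y).IsCyc a u ∧ (Y.prod X).IsCyc b v

/-- The motive of `Y` (with respect to the cohomology `W`, and with rational coefficients) is a
direct summand of the direct sum of Tate twists of the motives of products `Q j` of members of `S`:
there are algebraic correspondences `u j` from `Y` to `Q j` and `v j` from `Q j` to `Y`, of opposite
degrees, such that the sum of the compositions `v j ∘ u j` acts as the identity on `H(Y)`. -/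
def IsGenerated (W : WeilCohomology.{u, v} ops) (S : Set 𝒱.Obj) (Y : 𝒱.Obj) : Prop :=
  ∃ (r : ℕ) (Q : Fin r → 𝒱.Obj) (u : ∀ j, (Y.prod (Q j)).Cycles)
    (v : ∀ j, ((Q j).prod Y).Cycles), (∀ j, IsProductOf S (Q j) ∧ AreOpposite (u j) (v j)) ∧
      SumsToOne (fun j => cycMap W (u j)) (fun j => cycMap W (v j))

/-- The conjecture D for cycles of codimension `j` on `Y`: a cycle of codimension `j` on `Y` all of
whose intersection numbers with cycles of codimension `dim Y - j` vanish is homologically equivalent
to zero. -/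
def HomEqNumIn (W : WeilCohomology.{u, v} ops) (Y : 𝒱.Obj) (j : ℕ) : Prop :=
  ∀ z, Y.IsCyc j z → (∀ w, Y.IsCyc (Y.dim - j) w → Y.V.degCycle (ops.mul z w) = 0) →
    W.cl Y z = 0

/-- The cycle class map `M ⊗ A^j(Y) → H^(2j)(Y)` is injective, where `A^j(Y)` is the space of the
cycles of codimension `j`, with rational coefficients, modulo homological equivalence: cycles of
codimension `j` whose classes are linearly independent over the rational numbers have classes which
are linearly independent over `M`. -/
def InjectiveOver (W : WeilCohomology.{u, v} ops) (M : Subfield W.K) (Y : 𝒱.Obj) (j : ℕ) : Prop :=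
  ∀ (n : ℕ) (z : Fin n → Y.Cycles), (∀ i, Y.IsCyc j (z i)) →
    IndependentOver (Set.range ((↑) : ℚ → W.K)) (fun i => W.cl Y (z i)) →
    IndependentOver (M : Set W.K) (fun i => W.cl Y (z i))

end Pool.Agent.Y146.KPS
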