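import Pool.Agent.Y146.KPS.Defs
import Pool.Agent.Y146.KP.Main
import Pool.Agent.W552.TateB

/-!
# Conjecture D and injectivity for varieties generated by abelian varieties
-/

open CategoryTheory AlgebraicGeometry Polynomial

universe u v w

namespace Pool.Agent.Y146.KPS

open Pool.Agent.H914 Pool.Agent.H914.VarClass Pool.Agent.H914.VarClass.Obj
  Pool.Agent.H914.WeilCohomology Pool.Agent.TH125.Gal Pool.Agent.H281R3.HT

variable {k : Type u} [Field k] {𝒱 : VarClass k} {ops : CycleOps 𝒱}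
  {W : WeilCohomology.{u, v} ops}

/-- The part of degree zero of an algebraic correspondence. -/
lemma exists_degree_zero {X : 𝒱.Obj} {c : W.H (X.prod X)} (hc : c ∈ algSpan W (X.prod X)) (i : ℕ) :
    ∃ c' ∈ spanCycles W (X.prod X) X.dim, ∀ a ∈ W.gr X i,
      proj (W.isInternal X) i (W.corr c a) = W.corr c' a := by
  induction hc using Submodule.span_induction with
  | mem c hc =>
    obtain ⟨p, z, hz, rfl⟩ := Set.mem_iUnion.1 hc
    by_cases hp : p = X.dim
    · subst hp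
      refine ⟨_, Submodule.subset_span ⟨X.dim, rfl, z, hz, rfl⟩, fun a ha => ?_⟩
      have h1 := W552.corr_mem_grZ (W.cl_mem hz) ha
      rw [show ((2 * X.dim : ℕ) : ℤ) + i - 2 * X.dim = (i : ℤ) by push_cast; ring,
        grZ_natCast] at h1
      exact proj_same _ h1
    · refine ⟨0, Submodule.zero_mem _, fun a ha => ?_⟩
      have h1 := W552.corr_mem_grZ (W.cl_mem hz) ha
      rw [W552.proj_grZ h1 i (by push_cast; omega), corr_zero, LinearMap.zero_apply]
  | zero => exact ⟨0, Submodule.zero_mem _, fun a _ => by simp⟩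
  | add x y _ _ hx hy =>
    obtain ⟨c, hc, h1⟩ := hx
    obtain ⟨d, hd, h2⟩ := hy
    refine ⟨c + d, Submodule.add_mem _ hc hd, fun a ha => ?_⟩
    rw [corr_add, LinearMap.add_apply, map_add, h1 a ha, h2 a ha, corr_add, LinearMap.add_apply]
  | smul r x _ hx =>
    obtain ⟨c, hc, h1⟩ := hx
    refine ⟨r • c, Submodule.smul_mem _ r hc, fun a ha => ?_⟩
    rw [corr_smul, LinearMap.smul_apply, map_smul, h1 a ha, corr_smul, LinearMap.smul_apply]

variable {Γ : Type w} [Group Γ] {χ : Γ →* W.Kˣ} {G : Set (GVar W Γ)} {M : Subfield W.K}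

theorem abelianOver {A : GVar W Γ} (h : AbelianOver χ M A) : KP.AbelianOver χ M A := by
  obtain ⟨ξ, f, m, h, ⟨⟨hgen, hdiv, htr, hχ⟩, s, hs⟩, ⟨hsq, hzero, hadj, hconj⟩,
    ⟨hcen, himg⟩, hM⟩ := h
  refine ⟨ξ, f, m, h, ⟨hgen, ⟨W.map s, ⟨s, rfl⟩, hs⟩, ⟨hdiv, htr, hχ⟩⟩,
    ⟨⟨hsq, hzero, hadj, hconj⟩, ?_, ?_⟩, hM⟩
  · rintro _ ⟨c, hc, rfl⟩ hU a ha
    obtain ⟨c', hc', h1⟩ := exists_degree_zero (W := W) hc 1
    have h2 : ∀ b ∈ W.gr A.X 1, W.corr c b = W.corr c' b := fun b hb => by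
      rw [← h1 b hb]
      exact (proj_same _ (hU b hb)).symm
    have hf : W.map f a ∈ W.gr A.X 1 := W.map_mem f ha
    change W.corr c (W.map f a) = W.map f (W.corr c a)
    rw [h2 _ hf, h2 _ ha]
    clear h1 h2
    induction hc' using Submodule.span_induction with
    | mem c hc =>
      obtain ⟨q, hq, z, hz, rfl⟩ := hc
      obtain rfl : q = A.X.dim := by exact_mod_cast hq
      exact hcen _ ⟨z, hz, rfl⟩ a ha
    | zero => rw [corr_zero, LinearMap.zero_apply, LinearMap.zero_apply, map_zero]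
    | add x y _ _ hx hy =>
      rw [corr_add, LinearMap.add_apply, LinearMap.add_apply, hx, hy, map_add]
    | smul r x _ hx => rw [corr_smul, LinearMap.smul_apply, LinearMap.smul_apply, hx, map_smul]
  · intro V hV hΓ hE
    refine himg V hV hΓ ?_
    rintro _ ⟨z, hz, rfl⟩ a ha
    refine hE _ ⟨W.cl _ z, Submodule.subset_span (Set.mem_iUnion.2 ⟨_, z, hz, rfl⟩), rfl⟩ ?_ a ha
    intro b hb
    have h1 := W552.corr_mem_grZ (W.cl_mem hz) hb
    rw [show ((2 * A.X.dim : ℕ) : ℤ) + (1 : ℕ) - 2 * A.X.dim = ((1 : ℕ) : ℤ) by push_cast; ring,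
      grZ_natCast] at h1
    exact h1

theorem isProductOf {S : Set 𝒱.Obj} {Y : 𝒱.Obj} (h : IsProductOf S Y) :
    Pool.Agent.H914.IsProductOf S Y := by
  induction h with
  | base h => exact .base h
  | prod _ _ h1 h2 => exact .prod h1 h2

theorem isGenerated {S : Set 𝒱.Obj} {Y : 𝒱.Obj} (h : IsGenerated W S Y) :
    W550.B.IsGenerated W S Y := by
  obtain ⟨r, Q, u, v, h1, h2⟩ := h
  exact .inr ⟨r, Q, fun j => isProductOf (h1 j).1, u, v, fun j => (h1 j).2, h2⟩

/-- **Numerical and homological equivalence and injectivity** for the varieties generated by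
abelian varieties. -/
theorem homEqNumIn_iff (hG : GaloisClass χ G) {S : Set (GVar W Γ)} (hSG : S ⊆ G)
    (hS : ∀ A ∈ S, AbelianOver χ M A) {Y : 𝒱.Obj} (hY : IsGenerated W (GVar.X '' S) Y) (j : ℕ) :
    HomEqNumIn W Y j ↔ InjectiveOver W M Y j :=
  KP.homEqNumIn_iff_injectiveOver hG hSG (fun A hA => abelianOver (hS A hA)) (isGenerated hY) j

end Pool.Agent.Y146.KPS
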